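import Mathlib

set_option autoImplicit false

namespace Pool.Agent.Results.MP_0a2dc5_al.NoEmbed

universe u v

section Frame
variable {L : Type} [Lattice L] {D : Type u} [DivisionRing D] {V : Type v} [AddCommGroup V]
  [Module D V] (f : LatticeHom L (Submodule D V))

theorem frame (hf : Function.Injective f) (o a1 a2 a3 c2 c3 : L) (h0 : ¬ a1 ≤ o)
    (h2 : a1 ≤ a2 ⊔ c2) (h3 : a1 ≤ a3 ⊔ c3) (h4 : a1 ⊓ c2 ≤ o) (h5 : o ≤ c2) :
    ∃ y z : V, y ∈ f a2 ∧ z ∈ f a3 ∧ y ∉ f o ∧ y - z ∈ f ((c2 ⊔ c3) ⊓ (a2 ⊔ a3)) ∧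
      y + z ∈ f ((((c2 ⊔ a3) ⊓ (c3 ⊔ a2)) ⊔ a1) ⊓ (a2 ⊔ a3)) := by
  have mono : Monotone f := OrderHomClass.mono f
  have h1 : ¬ f a1 ≤ f o := by
    intro h
    apply h0
    rw [← inf_eq_left, ← map_inf] at h
    exact inf_eq_left.1 (hf h)
  obtain ⟨x, hx, hx0⟩ := SetLike.not_le_iff_exists.1 h1
  have e2 := mono h2 hx
  have e3 := mono h3 hx
  rw [map_sup] at e2 e3
  obtain ⟨y, hy, p, hp, e2⟩ := Submodule.mem_sup.1 e2
  obtain ⟨z, hz, q, hq, e3⟩ := Submodule.mem_sup.1 e3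
  refine ⟨y, z, hy, hz, fun h => hx0 ?_, ?_, ?_⟩
  · apply mono h4
    rw [map_inf]
    exact ⟨hx, e2 ▸ Submodule.add_mem _ (mono h5 h) hp⟩
  · rw [map_inf, map_sup, map_sup]
    refine ⟨?_, Submodule.sub_mem _ (Submodule.mem_sup_left hy) (Submodule.mem_sup_right hz)⟩
    have : y - z = q - p := by
      rw [sub_eq_sub_iff_add_eq_add, e2, add_comm, e3]
    rw [this]
    exact Submodule.sub_mem _ (Submodule.mem_sup_right hq) (Submodule.mem_sup_left hp)
  · simp only [map_inf, map_sup]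
    refine ⟨?_, Submodule.add_mem _ (Submodule.mem_sup_left hy) (Submodule.mem_sup_right hz)⟩
    have e : y + z = x - (p - z) := by rw [← e2]; abel
    rw [e]
    refine Submodule.sub_mem _ (Submodule.mem_sup_right hx) (Submodule.mem_sup_left ⟨?_, ?_⟩)
    · exact Submodule.sub_mem _ (Submodule.mem_sup_left hp) (Submodule.mem_sup_right hz)
    · have : p - z = q - y := by
        rw [sub_eq_sub_iff_add_eq_add, add_comm, e2, add_comm, e3]
      rw [this]
      exact Submodule.sub_mem _ (Submodule.mem_sup_left hq) (Submodule.mem_sup_right hy)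

end Frame

abbrev A := Fin 3 → ZMod 6

/-- the cyclic subgroup generated by `w` -/
abbrev cy (w : A) : AddSubgroup A := AddSubgroup.zmultiples w

/-- solutions of `m • x = 0` and one linear equation -/
def pl (m : ZMod 6) (w : A) : AddSubgroup A where
  carrier := {x | (∀ i, m * x i = 0) ∧ w 0 * x 0 + w 1 * x 1 + w 2 * x 2 = 0}
  add_mem' := by
    rintro a b ⟨h1, h2⟩ ⟨h3, h4⟩
    refine ⟨fun i => by rw [Pi.add_apply, mul_add, h1, h3, add_zero], ?_⟩
    simp only [Pi.add_apply]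
    linear_combination h2 + h4
  zero_mem' := by simp
  neg_mem' := by
    rintro a ⟨h1, h2⟩
    refine ⟨fun i => by rw [Pi.neg_apply, mul_neg, h1, neg_zero], ?_⟩
    simp only [Pi.neg_apply]
    linear_combination -h2

instance (m : ZMod 6) (w x : A) : Decidable (x ∈ pl m w) :=
  inferInstanceAs (Decidable ((∀ i, m * x i = 0) ∧ w 0 * x 0 + w 1 * x 1 + w 2 * x 2 = 0))

theorem cy_le {w : A} {H : AddSubgroup A} (h : w ∈ H) : cy w ≤ H := AddSubgroup.zmultiples_le.2 h

theorem cy2 {w w' : A} {H : AddSubgroup A} (h : w ∈ H) (h' : w' ∈ H) : cy w ⊔ cy w' ≤ H :=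
  sup_le (cy_le h) (cy_le h')

theorem basic (k : ZMod 6) (hk : k ≠ 0) :
    ¬ cy ![k, 0, 0] ≤ ⊥ ∧ cy ![k, 0, 0] ≤ cy ![0, k, 0] ⊔ cy ![k, -k, 0] ∧
      cy ![k, 0, 0] ≤ cy ![0, 0, k] ⊔ cy ![k, 0, -k] := by
  refine ⟨fun h => hk ?_, cy_le ?_, cy_le ?_⟩
  · exact congrFun (AddSubgroup.mem_bot.1 (h (AddSubgroup.mem_zmultiples _))) 0
  · refine AddSubgroup.mem_sup.2 ⟨_, AddSubgroup.mem_zmultiples _, _,
      AddSubgroup.mem_zmultiples _, ?_⟩
    ext i; fin_cases i <;> simp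
  · refine AddSubgroup.mem_sup.2 ⟨_, AddSubgroup.mem_zmultiples _, _,
      AddSubgroup.mem_zmultiples _, ?_⟩
    ext i; fin_cases i <;> simp

theorem bot3 (m : ZMod 6) (w1 w2 w3 : A)
    (h : ∀ x : A, x ∈ pl m w1 → x ∈ pl m w2 → x ∈ pl m w3 → x = 0) {H : AddSubgroup A}
    (h1 : H ≤ pl m w1) (h2 : H ≤ pl m w2) (h3 : H ≤ pl m w3) : H ≤ ⊥ :=
  fun x hx => AddSubgroup.mem_bot.2 (h x (h1 hx) (h2 hx) (h3 hx))

theorem le2 (m : ZMod 6) (w1 w2 w3 : A)
    (h : ∀ x : A, x ∈ pl m w1 → x ∈ pl m w2 → x ∈ pl m w3) {H K : AddSubgroup A}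
    (h1 : H ≤ pl m w1) (h2 : K ≤ pl m w2) : H ⊓ K ≤ pl m w3 :=
  fun x hx => h x (h1 hx.1) (h2 hx.2)

/-- The subgroup lattice of the finite abelian group `(Z/6)^3` has no lattice embedding into the
subspace lattice of any vector space over any division ring. -/
theorem result : ∃ (A : Type) (_ : AddCommGroup A), Finite A ∧
    ∀ (D : Type u) [DivisionRing D] (V : Type v) [AddCommGroup V] [Module D V]
      (f : LatticeHom (AddSubgroup A) (Submodule D V)), ¬ Function.Injective f := by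
  refine ⟨A, inferInstance, inferInstance, fun D _ V _ _ f hf => ?_⟩
  have mono : Monotone f := OrderHomClass.mono f
  by_cases h : (2 : D) = 0
  · obtain ⟨b1, b2, b3⟩ := basic 2 (by decide)
    obtain ⟨y, z, hy, hz, h0, h1, h2⟩ := frame f hf ⊥ _ _ _ _ _ b1 b2 b3
      (bot3 3 ![0, 1, 0] ![0, 0, 1] ![1, 1, 0] (by decide +kernel)
        (inf_le_left.trans (cy_le (by decide))) (inf_le_left.trans (cy_le (by decide)))
        (inf_le_right.trans (cy_le (by decide)))) bot_le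
    have e : y + z = y - z := by
      rw [sub_eq_add_neg, add_right_inj, eq_neg_iff_add_eq_zero, ← two_smul D, h, zero_smul]
    rw [e] at h2
    have h3 : y - z ∈ f ⊥ := by
      refine mono ?_ (show y - z ∈ f (_ ⊓ _) by rw [map_inf]; exact ⟨h1, h2⟩)
      refine bot3 3 ![1, 0, 0] ![1, 1, 1] ![0, 1, -1] (by decide +kernel)
        (inf_le_left.trans (inf_le_right.trans (cy2 (by decide) (by decide))))
        (inf_le_left.trans (inf_le_left.trans (cy2 (by decide) (by decide))))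
        (inf_le_right.trans (inf_le_left.trans (sup_le ?_ (cy_le (by decide)))))
      exact le2 3 ![1, 1, 0] ![1, 0, 1] _ (by decide +kernel) (cy2 (by decide) (by decide))
        (cy2 (by decide) (by decide))
    apply h0
    refine mono ?_ (show y ∈ f (cy ![0, 2, 0] ⊓ cy ![0, 0, 2]) by
      rw [map_inf]
      refine ⟨hy, ?_⟩
      have := Submodule.add_mem _ (mono bot_le h3) hz
      rwa [sub_add_cancel] at this)
    exact bot3 3 ![1, 0, 0] ![0, 0, 1] ![0, 1, 0] (by decide +kernel)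
      (inf_le_left.trans (cy_le (by decide))) (inf_le_left.trans (cy_le (by decide)))
      (inf_le_right.trans (cy_le (by decide)))
  · obtain ⟨b1, b2, b3⟩ := basic 3 (by decide)
    obtain ⟨y, z, hy, hz, h0, h1, h2⟩ := frame f hf ⊥ _ _ _ _ _ b1 b2 b3
      (bot3 2 ![0, 1, 0] ![0, 0, 1] ![1, 1, 0] (by decide +kernel)
        (inf_le_left.trans (cy_le (by decide))) (inf_le_left.trans (cy_le (by decide)))
        (inf_le_right.trans (cy_le (by decide)))) bot_le
    have k1 : y - z ∈ f (pl 2 ![0, 1, 1]) := by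
      refine mono ?_ h1
      exact le2 2 ![1, 1, 1] ![1, 0, 0] _ (by decide +kernel) (cy2 (by decide) (by decide))
        (cy2 (by decide) (by decide))
    have k2 : y + z ∈ f (pl 2 ![0, 1, 1]) := by
      refine mono (inf_le_left.trans (sup_le ?_ (cy_le (by decide)))) h2
      exact le2 2 ![1, 1, 0] ![1, 0, 1] _ (by decide +kernel) (cy2 (by decide) (by decide))
        (cy2 (by decide) (by decide))
    have k3 : y ∈ f (pl 2 ![0, 1, 1]) := by
      have := Submodule.smul_mem _ (2 : D)⁻¹ (Submodule.add_mem _ k1 k2)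
      rwa [sub_add_add_cancel, ← two_smul D, smul_smul, inv_mul_cancel₀ h, one_smul] at this
    apply h0
    refine mono ?_ (show y ∈ f (cy ![0, 3, 0] ⊓ pl 2 ![0, 1, 1]) by
      rw [map_inf]; exact ⟨hy, k3⟩)
    exact bot3 2 ![1, 0, 0] ![0, 0, 1] ![0, 1, 1] (by decide +kernel)
      (inf_le_left.trans (cy_le (by decide))) (inf_le_left.trans (cy_le (by decide))) inf_le_right

end Pool.Agent.Results.MP_0a2dc5_al.NoEmbed
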